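import Pool.Agent.V5helper33.EHS.PW

set_option autoImplicit false

namespace Pool.Agent.V5helper33.EHS

open Finset MeasureTheory ProbabilityTheory Filter
open scoped ENNReal Topology
open Pool.Agent.W41 (V)
open Pool.Agent.V5helper42.RS (W model TT)

/-- the number of the elements `n ≤ x` of `A` with `n ≡ c` mod `q` -/
noncomputable def count (A : Set ℕ) (x q c : ℕ) : ℕ := {n : ℕ | n ∈ A ∧ 1 ≤ n ∧ n ≤ x ∧ n ≡ c [MOD q]}.ncard

/-- `|M(x;q,c) - M(x)/φ(q)|` -/
noncomputable def dev (a : ℕ → ℕ) (x q c : ℕ) : ℝ :=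
  |(count (model a) x q c : ℝ) - (count (model a) x 1 0 : ℝ) / Nat.totient q|

/-- `E(x;q)` for the model: the maximum over the admissible classes -/
noncomputable def EE (a : ℕ → ℕ) (x q : ℕ) : ℝ := sSup {r : ℝ | ∃ c : ℕ, Adm a q c ∧ r = dev a x q c}

/-- `S_θ(x)` for the model -/
noncomputable def SS (a : ℕ → ℕ) (θ : ℝ) (x : ℕ) : ℝ := ∑ q ∈ Icc 1 ⌊(x : ℝ) ^ θ⌋₊, EE a x q

lemma count_eq (a : ℕ → ℕ) (x q c : ℕ) : count (model a) x q c = NB a 0 x q (c % q) := by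
  classical
  unfold count NB
  rw [← Set.ncard_coe_finset]
  congr 1
  ext n
  simp only [coe_filter, mem_Ioc, Nat.ModEq, Set.mem_setOf_eq]
  constructor
  · rintro ⟨h1, h2, h3, h4⟩
    exact ⟨⟨by omega, by omega⟩, h4, h1⟩
  · rintro ⟨⟨h1, h2⟩, h3, h4⟩
    exact ⟨h4, by omega, by omega, h3⟩

lemma adm_mod (a : ℕ → ℕ) (q c : ℕ) (h : Adm a q c) : Adm a q (c % q) := by
  intro p hp hpq h1
  refine h p hp hpq (Nat.ModEq.trans ?_ h1)
  exact ((Nat.mod_modEq c q).of_dvd hpq).symm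

/-- a power of the form `x ^ (1 - 1/j)` dominates `x ^ θ` -/
lemma exists_j (θ : ℝ) (hθ : θ < 1) : ∃ j : ℕ, 2 ≤ j ∧ θ ≤ 1 - 1 / (j : ℝ) := by
  obtain ⟨j, hj⟩ := exists_nat_gt (1 / (1 - θ))
  have h1 : 0 < 1 - θ := by linarith
  refine ⟨j + 2, by omega, ?_⟩
  have h2 : 1 / (((j + 2 : ℕ) : ℝ)) ≤ 1 - θ := by
    rw [div_le_iff₀ (by positivity)]
    rw [div_lt_iff₀ h1] at hj
    push_cast
    nlinarith
  linarith

theorem fin (hPW : S_PW) (hPHI : S_PHI) (Ω : Type) [MeasurableSpace Ω] (μ : Measure Ω) [IsProbabilityMeasure μ]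
    (a : ℕ → Ω → ℕ) (hS : Setup μ a) : ∀ᵐ ω ∂μ,
    (∀ θ : ℝ, θ < 1 → ∀ A : ℝ, ∀ᶠ x : ℕ in atTop, ∀ q c : ℕ, 1 ≤ q → (q : ℝ) ≤ (x : ℝ) ^ θ →
      Adm (fun p => a p ω) q c →
      dev (fun p => a p ω) x q c ≤ (x : ℝ) / (Nat.totient q * (Real.log x) ^ A)) ∧
    (∀ θ : ℝ, θ < 1 → ∀ A : ℝ, ∃ C : ℝ, 0 < C ∧ ∀ x : ℕ, 2 < x →
      SS (fun p => a p ω) θ x ≤ C * x * (Real.log x) ^ (-A)) := by
  have h0 : ∀ᵐ ω ∂μ, ∀ A j : ℕ, 2 ≤ j → ∀ᶠ x : ℕ in atTop, ∀ q c : ℕ, 1 ≤ q →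
      (q : ℝ) ≤ (x : ℝ) ^ (1 - 1 / (j : ℝ)) → c < q → Adm (fun p => a p ω) q c →
      |(NB (fun p => a p ω) 0 x q c : ℝ) - (NB (fun p => a p ω) 0 x 1 0 : ℝ) / Nat.totient q| ≤
      (x : ℝ) / (Nat.totient q * (Real.log x) ^ A) := by
    rw [ae_all_iff]
    intro A
    rw [ae_all_iff]
    intro j
    by_cases hj : 2 ≤ j
    · filter_upwards [hPW Ω μ a hS A j hj] with ω h _
      exact h
    · exact Eventually.of_forall fun ω h => absurd h hj
  filter_upwards [h0] with ω h1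
  have point : ∀ θ : ℝ, θ < 1 → ∀ A : ℝ, ∀ᶠ x : ℕ in atTop, ∀ q c : ℕ, 1 ≤ q → (q : ℝ) ≤ (x : ℝ) ^ θ →
      Adm (fun p => a p ω) q c →
      dev (fun p => a p ω) x q c ≤ (x : ℝ) / (Nat.totient q * (Real.log x) ^ A) := by
    intro θ hθ A
    obtain ⟨j, hj, hθj⟩ := exists_j θ hθ
    obtain ⟨N, hN⟩ := exists_nat_gt A
    filter_upwards [h1 N j hj, ev_logn 0 1, eventually_ge_atTop 1] with x g1 g2 g3
    intro q c hq hqx hadm
    have hx1 : (1 : ℝ) ≤ x := by exact_mod_cast g3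
    have hL : (1 : ℝ) ≤ Real.log x := by simpa using g2
    have h2 := g1 q (c % q) hq (hqx.trans (Real.rpow_le_rpow_of_exponent_le hx1 hθj)) (Nat.mod_lt _ (by omega))
      (adm_mod _ q c hadm)
    have e1 : dev (fun p => a p ω) x q c =
        |(NB (fun p => a p ω) 0 x q (c % q) : ℝ) - (NB (fun p => a p ω) 0 x 1 0 : ℝ) / Nat.totient q| := by
      unfold dev
      rw [count_eq, count_eq]
    rw [e1]
    refine h2.trans ?_
    have hφ0 : (0 : ℝ) < Nat.totient q := by exact_mod_cast Nat.totient_pos.2 (by omega)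
    have h3 : (Real.log x) ^ A ≤ (Real.log x) ^ N := by
      rw [← Real.rpow_natCast]
      exact Real.rpow_le_rpow_of_exponent_le hL hN.le
    have h4 : (0 : ℝ) < (Real.log x) ^ A := Real.rpow_pos_of_pos (by linarith) _
    apply div_le_div_of_nonneg_left (by linarith) (by positivity)
    exact mul_le_mul_of_nonneg_left h3 hφ0.le
  refine ⟨point, ?_⟩
  intro θ hθ A
  obtain ⟨C, hC, hphi⟩ := hPHI
  obtain ⟨x0, hx0⟩ := eventually_atTop.1 ((point θ hθ (A + 2)).and (eventually_ge_atTop 3))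
  have hsum0 : ∀ y : ℕ, 0 ≤ |SS (fun p => a p ω) θ y| / (y * (Real.log y) ^ (-A)) := by
    intro y
    apply div_nonneg (abs_nonneg _)
    rcases Nat.eq_zero_or_pos y with h | h
    · rw [h]; simp
    · have : 0 ≤ Real.log y := Real.log_nonneg (by exact_mod_cast h)
      have := Real.rpow_nonneg this (-A)
      positivity
  refine ⟨C + ∑ y ∈ range x0, |SS (fun p => a p ω) θ y| / (y * (Real.log y) ^ (-A)),
    add_pos_of_pos_of_nonneg hC (sum_nonneg fun y _ => hsum0 y), ?_⟩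
  intro x hx2
  have hx1 : (1 : ℝ) < x := by exact_mod_cast (by omega : 1 < x)
  have hxp : (0 : ℝ) < x := by linarith
  have hL0 : 0 < Real.log x := Real.log_pos hx1
  have hLA : 0 < (Real.log x) ^ (-A) := Real.rpow_pos_of_pos hL0 _
  by_cases hxx : x0 ≤ x
  · obtain ⟨g1, g2⟩ := hx0 x hxx
    have hL1 : (1 : ℝ) ≤ Real.log x := by
      rw [Real.le_log_iff_exp_le hxp]
      have : (3 : ℝ) ≤ x := by exact_mod_cast g2
      linarith [Real.exp_one_lt_d9]
    have h3 : SS (fun p => a p ω) θ x ≤ C * x * (Real.log x) ^ (-A) := by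
      unfold SS
      have h4 : ∀ q ∈ Icc 1 ⌊(x : ℝ) ^ θ⌋₊, EE (fun p => a p ω) x q ≤
          (x * (Real.log x) ^ (-(A + 2))) * (1 / (Nat.totient q : ℝ)) := by
        intro q hq
        rw [mem_Icc] at hq
        have hqx : (q : ℝ) ≤ (x : ℝ) ^ θ :=
          (Nat.le_floor_iff (Real.rpow_nonneg hxp.le _)).1 hq.2
        unfold EE
        apply Real.sSup_le
        · rintro r ⟨c, hc, rfl⟩
          refine (g1 q c hq.1 hqx hc).trans (le_of_eq ?_)
          rw [Real.rpow_neg hL0.le]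
          field_simp
        · have := Real.rpow_pos_of_pos hL0 (-(A + 2))
          positivity
      refine (sum_le_sum h4).trans ?_
      rw [← mul_sum]
      have h5 : ∑ q ∈ Icc 1 ⌊(x : ℝ) ^ θ⌋₊, 1 / (Nat.totient q : ℝ) ≤ C * (Real.log x) ^ 2 := by
        refine le_trans ?_ (hphi x (by omega))
        apply sum_le_sum_of_subset_of_nonneg
        · apply Icc_subset_Icc_right
          have h6 : (x : ℝ) ^ θ ≤ x := by
            calc (x : ℝ) ^ θ ≤ (x : ℝ) ^ (1 : ℝ) := Real.rpow_le_rpow_of_exponent_le hx1.le hθ.le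
              _ = x := Real.rpow_one _
          calc ⌊(x : ℝ) ^ θ⌋₊ ≤ ⌊(x : ℝ)⌋₊ := Nat.floor_le_floor h6
            _ = x := Nat.floor_natCast x
        · intro q _ _; positivity
      have h6 : 0 ≤ (x : ℝ) * (Real.log x) ^ (-(A + 2)) := by
        have := Real.rpow_pos_of_pos hL0 (-(A + 2))
        positivity
      refine (mul_le_mul_of_nonneg_left h5 h6).trans (le_of_eq ?_)
      have h7 : (Real.log x) ^ (-(A + 2)) * (Real.log x) ^ 2 = (Real.log x) ^ (-A) := by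
        rw [← Real.rpow_natCast (Real.log x) 2, ← Real.rpow_add hL0]
        congr 1
        push_cast
        ring
      calc (x : ℝ) * (Real.log x) ^ (-(A + 2)) * (C * (Real.log x) ^ 2)
          = C * x * ((Real.log x) ^ (-(A + 2)) * (Real.log x) ^ 2) := by ring
        _ = _ := by rw [h7]
    refine h3.trans ?_
    apply mul_le_mul_of_nonneg_right _ hLA.le
    apply mul_le_mul_of_nonneg_right _ hxp.le
    have := sum_nonneg (s := range x0) fun y _ => hsum0 y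
    linarith
  · have hxm : x ∈ range x0 := mem_range.2 (by omega)
    have h3 := single_le_sum (f := fun y : ℕ => |SS (fun p => a p ω) θ y| / (y * (Real.log y) ^ (-A)))
      (fun y _ => hsum0 y) hxm
    have h4 : SS (fun p => a p ω) θ x ≤
        (|SS (fun p => a p ω) θ x| / (x * (Real.log x) ^ (-A))) * (x * (Real.log x) ^ (-A)) := by
      rw [div_mul_cancel₀ _ (by positivity)]
      exact le_abs_self _
    refine h4.trans ?_
    rw [mul_assoc]
    apply mul_le_mul_of_nonneg_right _ (by positivity)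
    linarith

end Pool.Agent.V5helper33.EHS
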