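import Pool.Agent.V5helper33.EHS.Stm

set_option autoImplicit false

/-!
Project EHS, the large range `q ≤ x exp (-D (log log x)^2)` instead of `q ≤ x^(1-1/j)`: the same proofs with
`GG D x = exp (D (log log x)^2)` instead of `x^(1/j)`.
-/

namespace Pool.Agent.V5helper33.EHS

open Finset MeasureTheory ProbabilityTheory Filter
open scoped ENNReal Topology
open Pool.Agent.W41 (V)
open Pool.Agent.V5helper42.RS (W model TT)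

/-- `exp (D (log log x)^2)` -/
noncomputable def GG (D : ℝ) (x : ℕ) : ℝ := Real.exp (D * (Real.log (Real.log x)) ^ 2)

/-- PAR2: as S_PAR (`C0 b log w ≤ const (log log x)^2 ≤ D (log log x)^2 / 2`) -/
def S_PAR2 : Prop := ∀ C0 A : ℕ, 1 ≤ C0 → ∃ D : ℝ, 0 < D ∧ ∀ᶠ x : ℕ in atTop, ∃ b w : ℕ, C0 ≤ b ∧ C0 ≤ w ∧ b ≤ w ∧
  ((w ^ (C0 * b) : ℕ) : ℝ) ≤ GG D x - 1 ∧
  3 * (4 * (1/2 : ℝ) ^ b) ≤ ((Real.log x) ^ A)⁻¹ / 4 ∧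
  6 * Real.log x ≤ (4 * (1/2 : ℝ) ^ b) ^ 2 * w * (1 / (2 * Real.log x)) ^ 2 / 16 ∧
  (w : ℝ) * (2 * Real.log x) ≤ GG D x - 1 ∧
  4 * (Real.log x) ^ A ≤ GG D x

/-- EVT2 (hypotheses S_AP, S_CON, S_PAR2): as S_EVT -/
def S_EVT2 : Prop := ∀ A : ℕ, ∃ D : ℝ, 0 < D ∧ ∀ᶠ x : ℕ in atTop, ∀ (Ω : Type) [MeasurableSpace Ω] (μ : Measure Ω)
  [IsProbabilityMeasure μ] (a : ℕ → Ω → ℕ), Setup μ a → ∀ m h q c : ℕ, 1 ≤ q → c < q → q ≤ m →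
  GG D x ≤ (h : ℝ) / q → ∀ T : Finset ℕ, (∀ p ∈ T, p.Prime) → (∀ p ∈ T, ¬ p ∣ q) →
  1 / (2 * Real.log x) ≤ V T →
  μ {ω | ¬ Close (fun p => a p ω) m h q c T ((Real.log x) ^ A)⁻¹} ≤ ENNReal.ofReal (1 / (x : ℝ) ^ 5)

/-- BC2 (hypothesis S_EVT2): as S_BC (with `2 D` for the `D` of S_EVT2: `GG (2 D) x ≥ 2 (log x)^K GG D x` for large `x`) -/
def S_BC2 : Prop := ∀ A K : ℕ, ∃ D : ℝ, 0 < D ∧ ∀ (Ω : Type) [MeasurableSpace Ω] (μ : Measure Ω)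
  [IsProbabilityMeasure μ] (a : ℕ → Ω → ℕ), Setup μ a → ∀ᵐ ω ∂μ, ∀ᶠ x : ℕ in atTop, ∀ m q c t : ℕ, 1 ≤ q →
  (q : ℝ) * GG D x ≤ x → c < q → hh K x ≤ m → m ≤ x → (t = m ∨ t = m + hh K x) →
  Close (fun p => a p ω) m (hh K x) q c (TQ t q) ((Real.log x) ^ A)⁻¹

/-- PW2 (helper33) -/
def S_PW2 : Prop := ∀ A : ℕ, ∃ D : ℝ, 0 < D ∧ ∀ (Ω : Type) [MeasurableSpace Ω] (μ : Measure Ω)
  [IsProbabilityMeasure μ] (a : ℕ → Ω → ℕ), Setup μ a → ∀ᵐ ω ∂μ, ∀ᶠ x : ℕ in atTop, ∀ q c : ℕ, 1 ≤ q →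
  (q : ℝ) * GG D x ≤ x → c < q → Adm (fun p => a p ω) q c →
  |(NB (fun p => a p ω) 0 x q c : ℝ) - (NB (fun p => a p ω) 0 x 1 0 : ℝ) / Nat.totient q| ≤
    (x : ℝ) / (Nat.totient q * (Real.log x) ^ A)

end Pool.Agent.V5helper33.EHS
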