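import Pool.Agent.V5helper33.EHS.PW
import Pool.Agent.V5helper33.EHS.Stm3

set_option autoImplicit false

namespace Pool.Agent.V5helper33.EHS

open Finset MeasureTheory ProbabilityTheory Filter
open scoped ENNReal Topology
open Pool.Agent.W41 (V)
open Pool.Agent.V5helper42.RS (W model TT)

lemma tendsto_loglog : Tendsto (fun x : ℕ => Real.log (Real.log x)) atTop atTop :=
  Real.tendsto_log_atTop.comp (Real.tendsto_log_atTop.comp tendsto_natCast_atTop_atTop)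

/-- `GG` beats powers of `log x` -/
lemma ev_GG (K : ℕ) (D C : ℝ) (hD : 0 < D) : ∀ᶠ x : ℕ in atTop, C * (Real.log x) ^ K ≤ GG D x := by
  filter_upwards [tendsto_loglog.eventually_ge_atTop ((K + 1 + |C|) / D), tendsto_loglog.eventually_ge_atTop 1,
    ev_logn 0 1] with x h1 h2 h3
  have hL : (1 : ℝ) ≤ Real.log x := by simpa using h3
  have hL0 : 0 < Real.log x := by linarith
  obtain ⟨u, hu⟩ : ∃ u : ℝ, u = Real.log (Real.log x) := ⟨_, rfl⟩
  have hLu : Real.log x = Real.exp u := by rw [hu, Real.exp_log hL0]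
  unfold GG
  rw [← hu] at h1 h2 ⊢
  rw [hLu, ← Real.exp_nat_mul]
  have h4 : C ≤ Real.exp (|C|) := by
    have := Real.add_one_le_exp (|C|)
    linarith [le_abs_self C]
  have h5 : C * Real.exp (K * u) ≤ Real.exp (|C|) * Real.exp (K * u) :=
    mul_le_mul_of_nonneg_right h4 (Real.exp_pos _).le
  refine h5.trans ?_
  rw [← Real.exp_add]
  apply Real.exp_le_exp.2
  rw [div_le_iff₀ hD] at h1
  have h6 : 0 ≤ |C| := abs_nonneg C
  nlinarith

/-- `GG D x ≤ x ^ s` for large `x` -/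
lemma ev_GG_le (D s : ℝ) (hD : 0 < D) (hs : 0 < s) : ∀ᶠ x : ℕ in atTop, GG D x ≤ (x : ℝ) ^ s := by
  have h1 : (fun y : ℝ => (Real.log y) ^ (2 : ℝ)) =o[atTop] fun y : ℝ => y ^ (1 : ℝ) :=
    isLittleO_log_rpow_rpow_atTop (r := 2) (s := 1) one_pos
  have hlog : Tendsto (fun x : ℕ => Real.log x) atTop atTop :=
    Real.tendsto_log_atTop.comp tendsto_natCast_atTop_atTop
  have h2 := (h1.comp_tendsto hlog).bound (show (0 : ℝ) < s / D by positivity)
  filter_upwards [h2, ev_logn 0 1, eventually_ge_atTop 1] with x hx h3 h4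
  have hL : (1 : ℝ) ≤ Real.log x := by simpa using h3
  have hx0 : (0 : ℝ) < x := by exact_mod_cast h4
  simp only [Function.comp, Real.norm_eq_abs, Real.rpow_one] at hx
  rw [show ((2 : ℝ)) = ((2 : ℕ) : ℝ) by norm_num, Real.rpow_natCast, abs_of_nonneg (sq_nonneg _),
    abs_of_nonneg (by linarith : (0 : ℝ) ≤ Real.log x)] at hx
  unfold GG
  rw [Real.rpow_def_of_pos hx0]
  apply Real.exp_le_exp.2
  have h5 := mul_le_mul_of_nonneg_left hx hD.le
  have h6 : D * (s / D * Real.log x) = Real.log x * s := by field_simp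
  linarith

theorem pw2 (hBC : S_BC2) (hKAP : S_KAP) (hBLK : S_BLK) (hSUM : S_SUM)
    (hlt : ∀ (Ω : Type) [MeasurableSpace Ω] (μ : Measure Ω) [IsProbabilityMeasure μ] (a : ℕ → Ω → ℕ),
      Setup μ a → ∀ᵐ ω ∂μ, ∀ p : ℕ, p.Prime → a p ω < p) : S_PW2 := by
  intro A
  obtain ⟨D, hD, hBC'⟩ := hBC (A + 2) (A + 2)
  refine ⟨D, hD, ?_⟩
  intro Ω _ μ _ a hS
  have hK := hKAP (A + 2)
  filter_upwards [hBC' Ω μ a hS, hlt Ω μ a hS] with ω h1 h2
  filter_upwards [h1, hK, ev_logn 0 4, ev_GG (A + 2) D 2 hD, ev_pow (A + 2) (1 / 2) 2 (by norm_num),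
    eventually_ge_atTop 4, ev_GG_le D 1 hD one_pos] with x g1 g2 g3 g4 g5 g6 g7
  intro q c hq hqx hc hadm
  have hx0 : (0 : ℝ) < x := by exact_mod_cast (by omega : 0 < x)
  have hx1 : (1 : ℝ) ≤ x := by exact_mod_cast (by omega : 1 ≤ x)
  have hL : (4 : ℝ) ≤ Real.log x := by simpa using g3
  have hL0 : 0 < Real.log x := by linarith
  obtain ⟨h, hh'⟩ : ∃ h : ℕ, h = hh (A + 2) x := ⟨_, rfl⟩
  rw [← hh'] at g1
  have hP0 : (0 : ℝ) < (Real.log x) ^ (A + 2) := by positivity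
  have hP1 : (1 : ℝ) ≤ (Real.log x) ^ (A + 2) := one_le_pow₀ (by linarith)
  have hle : (h : ℝ) ≤ x / (Real.log x) ^ (A + 2) := by
    rw [hh']; exact Nat.floor_le (by positivity)
  have hsq : (x : ℝ) = (x : ℝ) ^ (1 / 2 : ℝ) * (x : ℝ) ^ (1 / 2 : ℝ) := by
    rw [← Real.rpow_add hx0]; norm_num
  -- lower bound of h
  have hge : (x : ℝ) / (2 * (Real.log x) ^ (A + 2)) ≤ h := by
    have h3 : (x : ℝ) / (Real.log x) ^ (A + 2) < h + 1 := by
      rw [hh']; exact Nat.lt_floor_add_one _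
    have h4 : 2 ≤ (x : ℝ) / (Real.log x) ^ (A + 2) := by
      rw [le_div_iff₀ hP0]
      have h6 : (1 : ℝ) ≤ (x : ℝ) ^ (1 / 2 : ℝ) := Real.one_le_rpow hx1 (by norm_num)
      have h7 : (x : ℝ) ^ (1 / 2 : ℝ) * 1 ≤ (x : ℝ) ^ (1 / 2 : ℝ) * (x : ℝ) ^ (1 / 2 : ℝ) :=
        mul_le_mul_of_nonneg_left h6 (by linarith)
      rw [← hsq, mul_one] at h7
      exact g5.trans h7
    have h5 : (x : ℝ) / (2 * (Real.log x) ^ (A + 2)) = (x : ℝ) / (Real.log x) ^ (A + 2) / 2 := by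
      field_simp
    linarith
  have hqh' : (q : ℝ) ≤ h := by
    refine le_trans ?_ hge
    rw [le_div_iff₀ (by positivity)]
    exact (mul_le_mul_of_nonneg_left g4 (Nat.cast_nonneg q)).trans hqx
  have hqh : q ≤ h := by exact_mod_cast hqh'
  have hh1 : 1 ≤ h := le_trans hq hqh
  have hhx : h ≤ x := by
    have h3 : (h : ℝ) ≤ x := hle.trans (div_le_self hx0.le hP1)
    exact_mod_cast h3
  have hhsq : (x : ℝ) ≤ (h : ℝ) ^ 2 := by
    have h3 : (x : ℝ) ^ (1 / 2 : ℝ) ≤ h := by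
      refine le_trans ?_ hge
      rw [le_div_iff₀ (by positivity)]
      calc (x : ℝ) ^ (1 / 2 : ℝ) * (2 * (Real.log x) ^ (A + 2))
          ≤ (x : ℝ) ^ (1 / 2 : ℝ) * (x : ℝ) ^ (1 / 2 : ℝ) :=
            mul_le_mul_of_nonneg_left g5 (Real.rpow_nonneg hx0.le _)
        _ = x := hsq.symm
    calc (x : ℝ) = (x : ℝ) ^ (1 / 2 : ℝ) * (x : ℝ) ^ (1 / 2 : ℝ) := hsq
      _ ≤ h * h := mul_le_mul h3 h3 (Real.rpow_nonneg hx0.le _) (Nat.cast_nonneg _)
      _ = (h : ℝ) ^ 2 := by ring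
  have hqx' : q ≤ x := hqh.trans hhx
  obtain ⟨ε, hε⟩ : ∃ ε : ℝ, ε = ((Real.log x) ^ (A + 2))⁻¹ := ⟨_, rfl⟩
  have hε0 : 0 < ε := by rw [hε]; positivity
  have hε1 : ε ≤ 1 := by rw [hε]; exact inv_le_one_of_one_le₀ hP1
  rw [← hε] at g1 g2
  have hφ : 1 ≤ Nat.totient q := Nat.totient_pos.2 (by omega)
  have hφ0 : (0 : ℝ) < Nat.totient q := by exact_mod_cast hφ
  have hone : ((1 : ℕ) : ℝ) * GG D x ≤ x := by
    rw [Nat.cast_one, one_mul]
    simpa using g7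
  have key := hSUM (fun p => a p ω) x h q c (2 * ε + ε) hh1 hhx hq hqh hc (by positivity) (by
    intro i hi hix
    have hm1 : 1 ≤ i * h := Nat.mul_pos hi hh1
    have hhm : h ≤ i * h := Nat.le_mul_of_pos_left h hi
    have hmx : i * h ≤ x := by nlinarith
    refine hBLK (fun p => a p ω) h2 (i * h) h q c hm1 hq hc hadm ε ε hε0.le hε1 hε0.le hε1 ?_
    intro t ht
    have htge : h ≤ t := by rcases ht with rfl | rfl <;> omega
    have htx : (x : ℝ) ≤ (t : ℝ) ^ 2 := by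
      have h3 : (h : ℝ) ≤ t := by exact_mod_cast htge
      have h4 : (h : ℝ) ^ 2 ≤ (t : ℝ) ^ 2 := pow_le_pow_left₀ (Nat.cast_nonneg _) h3 2
      linarith
    refine ⟨g1 (i * h) q c t hq hqx hc hhm hmx ht, g1 (i * h) 1 0 t le_rfl hone (by omega) hhm hmx ht, ?_, ?_⟩
    · exact (g2 q t hq hqx' htx).1
    · exact (g2 q t hq hqx' htx).2)
  refine key.trans ?_
  rw [div_le_div_iff₀ hφ0 (by positivity)]
  have h3 : (x : ℝ) * (2 * ε + ε) + 7 * h ≤ 10 * (x * ε) := by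
    have : (h : ℝ) ≤ x * ε := by rw [hε, ← div_eq_mul_inv]; exact hle
    linarith
  have h4 : 10 * (x * ε) * (Real.log x) ^ A ≤ x := by
    have h5 : ε * (Real.log x) ^ A = 1 / (Real.log x) ^ 2 := by
      rw [hε, pow_add]
      field_simp
    have h6 : 10 * (x * ε) * (Real.log x) ^ A = 10 * x * (1 / (Real.log x) ^ 2) := by
      rw [← h5]; ring
    rw [h6, mul_one_div, div_le_iff₀ (by positivity)]
    have h7 : (16 : ℝ) ≤ (Real.log x) ^ 2 := by
      have := pow_le_pow_left₀ (by norm_num : (0 : ℝ) ≤ 4) hL 2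
      linarith
    have h8 : (x : ℝ) * 16 ≤ x * (Real.log x) ^ 2 := mul_le_mul_of_nonneg_left h7 hx0.le
    have h9 : 10 * (x : ℝ) ≤ x * 16 := by
      rw [mul_comm]
      exact mul_le_mul_of_nonneg_left (by norm_num) hx0.le
    exact h9.trans h8
  calc ((x : ℝ) * (2 * ε + ε) + 7 * h) * (Nat.totient q * (Real.log x) ^ A)
      ≤ (10 * (x * ε)) * (Nat.totient q * (Real.log x) ^ A) :=
        mul_le_mul_of_nonneg_right h3 (by positivity)
    _ = (10 * (x * ε) * (Real.log x) ^ A) * Nat.totient q := by ring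
    _ ≤ x * Nat.totient q := mul_le_mul_of_nonneg_right h4 hφ0.le

end Pool.Agent.V5helper33.EHS
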