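import Pool.Agent.V5helper33.EHS.Fin
import Pool.Agent.V5helper33.EHS.PW2

set_option autoImplicit false

namespace Pool.Agent.V5helper33.EHS

open Finset MeasureTheory ProbabilityTheory Filter
open scoped ENNReal Topology
open Pool.Agent.W41 (V)
open Pool.Agent.V5helper42.RS (W model TT)

theorem fin2 (hPW : S_PW2) : ∃ D : ℝ → ℝ, (∀ A, 0 < D A) ∧
    ∀ (Ω : Type) [MeasurableSpace Ω] (μ : Measure Ω) [IsProbabilityMeasure μ]
    (a : ℕ → Ω → ℕ), Setup μ a → ∀ᵐ ω ∂μ, ∀ A : ℝ, ∀ᶠ x : ℕ in atTop, ∀ q c : ℕ, 1 ≤ q →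
      (q : ℝ) * Real.exp (D A * (Real.log (Real.log x)) ^ 2) ≤ x → Adm (fun p => a p ω) q c →
      dev (fun p => a p ω) x q c ≤ (x : ℝ) / (Nat.totient q * (Real.log x) ^ A) := by
  choose D0 hD0 hPW0 using hPW
  refine ⟨fun A => D0 ⌈A⌉₊, fun A => hD0 _, ?_⟩
  intro Ω _ μ _ a hS
  have h0 : ∀ᵐ ω ∂μ, ∀ N : ℕ, ∀ᶠ x : ℕ in atTop, ∀ q c : ℕ, 1 ≤ q →
      (q : ℝ) * GG (D0 N) x ≤ x → c < q → Adm (fun p => a p ω) q c →
      |(NB (fun p => a p ω) 0 x q c : ℝ) - (NB (fun p => a p ω) 0 x 1 0 : ℝ) / Nat.totient q| ≤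
      (x : ℝ) / (Nat.totient q * (Real.log x) ^ N) := by
    rw [ae_all_iff]
    intro N
    exact hPW0 N Ω μ a hS
  filter_upwards [h0] with ω h1
  intro A
  filter_upwards [h1 ⌈A⌉₊, ev_logn 0 1, eventually_ge_atTop 1] with x g1 g2 g3
  intro q c hq hqx hadm
  have hx1 : (1 : ℝ) ≤ x := by exact_mod_cast g3
  have hL : (1 : ℝ) ≤ Real.log x := by simpa using g2
  have h2 := g1 q (c % q) hq hqx (Nat.mod_lt _ (by omega)) (adm_mod _ q c hadm)
  have e1 : dev (fun p => a p ω) x q c =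
      |(NB (fun p => a p ω) 0 x q (c % q) : ℝ) - (NB (fun p => a p ω) 0 x 1 0 : ℝ) / Nat.totient q| := by
    unfold dev
    rw [count_eq, count_eq]
  rw [e1]
  refine h2.trans ?_
  have hφ0 : (0 : ℝ) < Nat.totient q := by exact_mod_cast Nat.totient_pos.2 (by omega)
  have h3 : (Real.log x) ^ A ≤ (Real.log x) ^ ⌈A⌉₊ := by
    rw [← Real.rpow_natCast]
    exact Real.rpow_le_rpow_of_exponent_le hL (Nat.le_ceil A)
  have h4 : (0 : ℝ) < (Real.log x) ^ A := Real.rpow_pos_of_pos (by linarith) _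
  apply div_le_div_of_nonneg_left (by linarith) (by positivity)
  exact mul_le_mul_of_nonneg_left h3 hφ0.le

/-- `x ^ θ` is in the range -/
lemma ev_range (D θ : ℝ) (hD : 0 < D) (hθ : θ < 1) : ∀ᶠ x : ℕ in atTop, ∀ q : ℕ, (q : ℝ) ≤ (x : ℝ) ^ θ →
    (q : ℝ) * Real.exp (D * (Real.log (Real.log x)) ^ 2) ≤ x := by
  filter_upwards [ev_GG_le D (1 - θ) hD (by linarith), eventually_ge_atTop 1] with x h1 h2
  intro q hq
  have hx0 : (0 : ℝ) < x := by exact_mod_cast h2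
  unfold GG at h1
  calc (q : ℝ) * Real.exp (D * (Real.log (Real.log x)) ^ 2) ≤ (x : ℝ) ^ θ * (x : ℝ) ^ (1 - θ) :=
        mul_le_mul hq h1 (Real.exp_pos _).le (Real.rpow_nonneg hx0.le _)
    _ = x := by rw [← Real.rpow_add hx0]; simp

/-- S_PW from S_PW2 -/
theorem pw_of_pw2 (h : S_PW2) : S_PW := by
  intro Ω _ μ _ a hS A j hj
  obtain ⟨D, hD, h1⟩ := h A
  have hj0 : (0 : ℝ) < j := by exact_mod_cast (by omega : 0 < j)
  have hij : 0 < 1 / (j : ℝ) := by positivity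
  filter_upwards [h1 Ω μ a hS] with ω h2
  filter_upwards [h2, ev_range D (1 - 1 / (j : ℝ)) hD (by linarith)] with x g1 g2
  intro q c hq hqx hc hadm
  exact g1 q c hq (g2 q hqx) hc hadm

end Pool.Agent.V5helper33.EHS
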