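import Pool.Agent.V5helper42.RS.W

set_option autoImplicit false

/-!
# Project EHS: the Elliott-Halberstam conjecture in the random sieve model of Banks, Ford and Tao

`a_p` independent, uniform on `{0, ..., p-1}`; `M = model a`. Almost surely, for all `θ < 1` and `A`, for all
large `x`, all `q ≤ x ^ θ` and all classes `c` mod `q` with `c ≠ a_p mod p` for the primes `p ∣ q`:
`|M(x;q,c) - M(x)/φ(q)| ≤ x / (φ(q) (log x)^A)`.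
-/

namespace Pool.Agent.V5helper33.EHS

open Finset MeasureTheory ProbabilityTheory Filter
open scoped ENNReal Topology
open Pool.Agent.W41 (V)
open Pool.Agent.V5helper42.RS (W model TT)

/-- `a_p` are measurable, independent and uniform on the classes modulo `p` -/
structure Setup {Ω : Type} [MeasurableSpace Ω] (μ : Measure Ω) (a : ℕ → Ω → ℕ) : Prop where
  meas : ∀ p, Measurable (a p)
  indep : iIndepFun a μ
  unif : ∀ p : ℕ, p.Prime → ∀ r < p, μ {ω | a p ω = r} = (p : ℝ≥0∞)⁻¹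

/-- (helper42) -/
def S_AP : Prop := ∃ C0 : ℕ, 2 ≤ C0 ∧ ∀ (Ω : Type) [MeasurableSpace Ω] (μ : Measure Ω) [IsProbabilityMeasure μ]
    (a : ℕ → Ω → ℕ), (∀ p, Measurable (a p)) → iIndepFun a μ →
    (∀ p : ℕ, p.Prime → ∀ r < p, μ {ω | a p ω = r} = (p : ℝ≥0∞)⁻¹) → ∀ b w y : ℕ, C0 ≤ b → C0 ≤ w → b ≤ w →
    w ^ (C0 * b) ≤ y → ∀ T : Finset ℕ, (∀ p ∈ T, p.Prime) → (w : ℝ) ≤ y * V T →
    ∀ q c : ℕ, 1 ≤ q → (∀ p ∈ T, ¬ p ∣ q) → ∀ m : ℕ,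
    μ {ω | ¬ |(((Ioc m (m + y)).filter (fun k => ∀ p ∈ T, (c + q * k) % p ≠ a p ω)).card : ℝ) - y * V T| ≤
      3 * (4 * (1/2)^b) * (y * V T)} ≤ ENNReal.ofReal (2 * Real.exp (-((4 * (1/2 : ℝ)^b) ^ 2 * w * V T ^ 2 / 16)))

open Classical in
/-- the number of the `n ∈ (m, m + h]`, `n ≡ c` mod `q`, outside the classes `a p` for `p ∈ T` -/
noncomputable def FF (a : ℕ → ℕ) (m h q c : ℕ) (T : Finset ℕ) : ℕ :=
  ((Ioc m (m + h)).filter (fun n => n % q = c ∧ ∀ p ∈ T, n % p ≠ a p)).card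

/-- this number is close to the expected one -/
def Close (a : ℕ → ℕ) (m h q c : ℕ) (T : Finset ℕ) (ε : ℝ) : Prop :=
  |(FF a m h q c T : ℝ) - (h : ℝ) / q * V T| ≤ ε * ((h : ℝ) / q * V T)

open Classical in
/-- the number of the elements `n ∈ (m, m + h]` of the model with `n ≡ c` mod `q` -/
noncomputable def NB (a : ℕ → ℕ) (m h q c : ℕ) : ℕ :=
  ((Ioc m (m + h)).filter (fun n => n % q = c ∧ n ∈ model a)).card

/-- `c` is an admissible class modulo `q` -/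
def Adm (a : ℕ → ℕ) (q c : ℕ) : Prop := ∀ p : ℕ, p.Prime → p ∣ q → ¬ c ≡ a p [MOD p]

/-- the primes of `TT (log t)` which do not divide `q` -/
noncomputable def TQ (t q : ℕ) : Finset ℕ := (TT (Real.log t)).filter (fun p => ¬ p ∣ q)

/-- the block length `⌊x / (log x)^K⌋` -/
noncomputable def hh (K x : ℕ) : ℕ := ⌊(x : ℝ) / (Real.log x) ^ K⌋₊

/-- CON (60 lines). The `n ∈ (m, m+h]` with `n ≡ c` mod `q` are the `c + q k` with `k` in an interval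
`(m', m' + y]`, `|y - h/q| ≤ 1`.

Proof. `n = c + q k` with `k = n / q` (as `n % q = c`); `m < c + q k` iff `k > (m - c) / q` (integer division;
`c < q ≤ m`): `c + q k ≤ m ↔ k ≤ (m - c) / q` (`Nat.le_div_iff_mul_le`). So `m' = (m - c) / q`,
`m' + y = (m + h - c) / q`, and `y` is the difference of the two quotients. `card_bij` (or `card_nbij`). -/
def S_CON : Prop := ∀ q c m h : ℕ, 1 ≤ q → c < q → q ≤ m → ∃ m' y : ℕ, |(y : ℝ) - (h : ℝ) / q| ≤ 1 ∧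
  ∀ (a : ℕ → ℕ) (T : Finset ℕ),
    FF a m h q c T = ((Ioc m' (m' + y)).filter (fun k => ∀ p ∈ T, (c + q * k) % p ≠ a p)).card

/-- PAR (100 lines, real analysis). Choice of the parameters.

Proof. `L = log x`. `b = ⌈2 (A + 3) log L⌉₊ + C0`, `w = ⌈L ^ (4 A + 20)⌉₊`. `(1/2)^b ≤ exp (-b/2) ≤ L^(-(A+3))`
(`log 2 ≥ 1/2`), `(1/2)^b ≥ exp (-b) ≥ exp (-(C0+1)) L^(-(2A+6))` (`log 2 ≤ 1`). So the square in the fourth
inequality is at least `16 exp(-2(C0+1)) L^(-4A-12)` and the right hand side is at least `const * L^6`.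
`C0 b log w ≤ const * (log L)^2 ≤ L / (2 j)` for large `x`. -/
def S_PAR : Prop := ∀ C0 A j : ℕ, 1 ≤ C0 → 1 ≤ j → ∀ᶠ x : ℕ in atTop, ∃ b w : ℕ, C0 ≤ b ∧ C0 ≤ w ∧ b ≤ w ∧
  ((w ^ (C0 * b) : ℕ) : ℝ) ≤ (x : ℝ) ^ (1 / (j : ℝ)) - 1 ∧
  3 * (4 * (1/2 : ℝ) ^ b) ≤ ((Real.log x) ^ A)⁻¹ / 4 ∧
  6 * Real.log x ≤ (4 * (1/2 : ℝ) ^ b) ^ 2 * w * (1 / (2 * Real.log x)) ^ 2 / 16 ∧
  (w : ℝ) * (2 * Real.log x) ≤ (x : ℝ) ^ (1 / (j : ℝ)) - 1 ∧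
  4 * (Real.log x) ^ A ≤ (x : ℝ) ^ (1 / (j : ℝ))

/-- EVT (100 lines, hypotheses S_AP, S_CON, S_PAR). The probability that one count is not close.

Proof. `b, w` from S_PAR, `m', y` from S_CON; `y ≥ h/q - 1 ≥ x^(1/j) - 1`, so `w^(C0 b) ≤ y` and
`w ≤ y V T` by the inequalities of S_PAR (`V T ≥ 1/(2 log x)`). S_AP bounds the probability of
`|F - y V T| > 3 ε y V T` (`ε = 4 (1/2)^b`) by `2 exp(-6 log x) ≤ 1/x^5` (`V T ^ 2 ≥ (1/(2 log x))^2`).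
Outside this event `|F - (h/q) V T| ≤ 3 ε y V T + |y - h/q| V T ≤ (L^(-A)/4) (h/q + 1) V T + V T ≤ L^(-A) (h/q) V T`,
as `h/q ≥ x^(1/j) ≥ 4 L^A`, `h/q ≥ 1`. (`V T > 0`: `Pool.Agent.W41.V_pos`.) -/
def S_EVT : Prop := ∀ A j : ℕ, 1 ≤ j → ∀ᶠ x : ℕ in atTop, ∀ (Ω : Type) [MeasurableSpace Ω] (μ : Measure Ω)
  [IsProbabilityMeasure μ] (a : ℕ → Ω → ℕ), Setup μ a → ∀ m h q c : ℕ, 1 ≤ q → c < q → q ≤ m →
  (x : ℝ) ^ (1 / (j : ℝ)) ≤ (h : ℝ) / q → ∀ T : Finset ℕ, (∀ p ∈ T, p.Prime) → (∀ p ∈ T, ¬ p ∣ q) →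
  1 / (2 * Real.log x) ≤ V T →
  μ {ω | ¬ Close (fun p => a p ω) m h q c T ((Real.log x) ^ A)⁻¹} ≤ ENNReal.ofReal (1 / (x : ℝ) ^ 5)

/-- BC (100 lines, hypothesis S_EVT). Borel-Cantelli.

Proof. As in `Pool.Agent.V5helper42.RS.prob_Bad`, `ae_regular` (file RS/E.lean). S_EVT with `2 j` for `j`. For large
`x`: `hh K x ≥ x / (2 (log x)^K) ≥ x^(1/(2j)) q` for `q ≤ x^(1-1/j)`, so `hh / q ≥ x^(1/(2j))`, `q ≤ hh ≤ m`.
`V (TQ t q) ≥ V (TT (log t)) ≥ 1 / log t ≥ 1 / (2 log x)` (`RS.V_TT_ge`; `t ≤ 2 x`; the factors of `V` are in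
`[0,1]`: `prod_le_prod_of_subset_of_le_one'` or similar). Number of events for one `x`: at most
`(x+1) * (x+1) * (x+1) * 2` (`m, q, c ≤ x`, `t`), so the probability is at most `16 x^3 / x^5`, summable;
`ae_eventually_notMem`. -/
def S_BC : Prop := ∀ (Ω : Type) [MeasurableSpace Ω] (μ : Measure Ω) [IsProbabilityMeasure μ] (a : ℕ → Ω → ℕ),
  Setup μ a → ∀ A j K : ℕ, 2 ≤ j → ∀ᵐ ω ∂μ, ∀ᶠ x : ℕ in atTop, ∀ m q c t : ℕ, 1 ≤ q →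
  (q : ℝ) ≤ (x : ℝ) ^ (1 - 1 / (j : ℝ)) → c < q → hh K x ≤ m → m ≤ x → (t = m ∨ t = m + hh K x) →
  Close (fun p => a p ω) m (hh K x) q c (TQ t q) ((Real.log x) ^ A)⁻¹

/-- KAP (100 lines). The primes dividing `q`.

Proof. `φ(q)/q = ∏_{p ∣ q} (1 - 1/p)` (`Nat.totient_eq_mul_prod_factors`), `T = TT (log t)`,
`V T = V (TQ t q) * ∏_{p ∈ T, p ∣ q} (1 - 1/p)`, so `V (TQ t q) / q = (V T / φ(q)) * ∏_{p ∣ q, p ∉ T} (1 - 1/p)`, and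
the last product is in `[1 - ∑_{p ∣ q, p ∉ T} 1/p, 1]`. If `p ∣ q` and `p ∉ T`, then `W p > log t ≥ (log x)/2`
(`RS.mem_TT`), so `p > (log x)^(K+2)` for large `x`, since `W` is monotone and `W n ≤ C log n` (`RS.W_mono`,
`RS.W_upper`). The number of the primes `p ∣ q` is at most `log q / log 2 ≤ 2 log x`
(`2 ^ card (primeFactors q) ≤ q`). So the sum is at most `2 log x / (log x)^(K+2) ≤ (log x)^(-K)`. -/
def S_KAP : Prop := ∀ K : ℕ, ∀ᶠ x : ℕ in atTop, ∀ q t : ℕ, 1 ≤ q → q ≤ x → (x : ℝ) ≤ (t : ℝ) ^ 2 →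
  V (TQ t q) / q ≤ V (TT (Real.log t)) / (Nat.totient q : ℝ) ∧
  (1 - ((Real.log x) ^ K)⁻¹) * (V (TT (Real.log t)) / (Nat.totient q : ℝ)) ≤ V (TQ t q) / q

/-- BLK (100 lines). One block.

Proof. `T = TT (log m)`, `T' = TT (log (m+h))`, `T ⊆ T'`. For `m < n ≤ m + h`: `n ∈ model a` implies that `n % p ≠ a p`
for `p ∈ T`, and is implied by `n % p ≠ a p` for all `p ∈ T'` (`RS.mem_TT`, `RS.modEq_iff`-like, `a p < p`; compare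
`RS.sandwich` in RS/E.lean). If `n ≡ c` mod `q`, `c` admissible and `p ∣ q`, then `n % p ≠ a p` anyway. So
`FF (TQ (m+h) q) ≤ NB(q,c) ≤ FF (TQ m q)`, and the same for `q = 1`, `c = 0`. With the four `Close` and `φ = φ(q)`:
`NB(q,c) ≤ (1+ε)(h/q) V(TQ m q) ≤ (1+ε)(h/φ) V T`, `NB(1,0)/φ ≥ (1-ε)(h/φ) V T'` (`TQ t 1 = TT (log t)`: no prime
divides `1`), so the difference is at most `(h/φ)(V T - V T' + 2ε)` (`V ≤ 1`); similarly from below: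
`NB(q,c) ≥ (1-ε)(1-δ)(h/φ) V T'`, `NB(1,0)/φ ≤ (1+ε)(h/φ) V T`. -/
def S_BLK : Prop := ∀ a : ℕ → ℕ, (∀ p, p.Prime → a p < p) → ∀ m h q c : ℕ, 1 ≤ m → 1 ≤ q → c < q →
  Adm a q c → ∀ ε δ : ℝ, 0 ≤ ε → ε ≤ 1 → 0 ≤ δ → δ ≤ 1 → (∀ t : ℕ, t = m ∨ t = m + h →
    Close a m h q c (TQ t q) ε ∧ Close a m h 1 0 (TQ t 1) ε ∧
    V (TQ t q) / q ≤ V (TT (Real.log t)) / (Nat.totient q : ℝ) ∧
    (1 - δ) * (V (TT (Real.log t)) / (Nat.totient q : ℝ)) ≤ V (TQ t q) / q) →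
  |(NB a m h q c : ℝ) - (NB a m h 1 0 : ℝ) / Nat.totient q| ≤ (h : ℝ) / Nat.totient q *
    (V (TT (Real.log m)) - V (TT (Real.log ((m + h : ℕ) : ℝ))) + (2 * ε + δ))

/-- SUM (100 lines). All blocks.

Proof. `J = x / h ≥ 1`. `NB a 0 x = NB a 0 h + ∑_{i=1}^{J-1} NB a (i h) h + NB a (J h) (x - J h)` (for `(q,c)` and for
`(1,0)`; induction on `J`: `Ioc m (m+h+k) = Ioc m (m+h) ∪ Ioc (m+h) (m+h+k)`). The sum of the bounds telescopes: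
`∑ (V_i - V_{i+1}) ≤ V_1 ≤ 1`, and `J h ≤ x`. The first and the last part: `NB a m k q c ≤ k / q + 1 ≤ 2 h / q ≤ 2 h / φ`
for `k ≤ h` (number of `n ∈ (m, m+k]` with `n % q = c`; `Nat.Ioc_filter_modEq_card` or `Nat.count_modEq_card`, or a
simple injection), `NB a m k 1 0 ≤ k ≤ h`. -/
def S_SUM : Prop := ∀ (a : ℕ → ℕ) (x h q c : ℕ) (η : ℝ), 1 ≤ h → h ≤ x → 1 ≤ q → q ≤ h → c < q → 0 ≤ η →
  (∀ i : ℕ, 1 ≤ i → (i + 1) * h ≤ x → |(NB a (i * h) h q c : ℝ) - (NB a (i * h) h 1 0 : ℝ) / Nat.totient q| ≤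
    (h : ℝ) / Nat.totient q *
      (V (TT (Real.log ((i * h : ℕ) : ℝ))) - V (TT (Real.log ((i * h + h : ℕ) : ℝ))) + η)) →
  |(NB a 0 x q c : ℝ) - (NB a 0 x 1 0 : ℝ) / Nat.totient q| ≤ (x * η + 7 * h) / Nat.totient q

/-- PHI (40-60 lines). `∑_{q ≤ x} 1/φ(q) ≤ C (log x)^2`.

Proof. Look for it in the starting files first (grep totient). Otherwise: `q/φ(q) ≤ ∑_{d ∣ q, d squarefree} 1/φ(d)`; or
`1/φ(q) = (1/q) ∏_{p ∣ q} (1 - 1/p)⁻¹ ≤ (1/q) W(x)` with `W(x) = ∏_{p ≤ x} (1-1/p)⁻¹ ≤ C log x` (`RS.W_upper`), and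
`∑_{q ≤ x} 1/q ≤ 1 + log x`. -/
def S_PHI : Prop := ∃ C : ℝ, 0 < C ∧ ∀ x : ℕ, 3 ≤ x →
  ∑ q ∈ Icc 1 x, 1 / (Nat.totient q : ℝ) ≤ C * (Real.log x) ^ 2

/-- PW (helper33, hypotheses all): the pointwise theorem -/
def S_PW : Prop := ∀ (Ω : Type) [MeasurableSpace Ω] (μ : Measure Ω) [IsProbabilityMeasure μ] (a : ℕ → Ω → ℕ),
  Setup μ a → ∀ A j : ℕ, 2 ≤ j → ∀ᵐ ω ∂μ, ∀ᶠ x : ℕ in atTop, ∀ q c : ℕ, 1 ≤ q →
  (q : ℝ) ≤ (x : ℝ) ^ (1 - 1 / (j : ℝ)) → c < q → Adm (fun p => a p ω) q c →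
  |(NB (fun p => a p ω) 0 x q c : ℝ) - (NB (fun p => a p ω) 0 x 1 0 : ℝ) / Nat.totient q| ≤
    (x : ℝ) / (Nat.totient q * (Real.log x) ^ A)

end Pool.Agent.V5helper33.EHS
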