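import Pool.Agent.V5helper33.EHS.Stm
import Pool.Agent.V5helper42.RS.E
import Pool.Agent.V5helper42.RS.FL

set_option autoImplicit false

namespace Pool.Agent.V5helper33.EHS

open Finset MeasureTheory ProbabilityTheory Filter
open scoped ENNReal Topology

/-- DEN (80 lines). Almost surely `M(x) ~ x / log x`.

Proof. `Pool.Agent.V5helper42.RS.ae_regular` (RS/E.lean) for `ε = 1/n`, all `n ≥ 4` (its hypothesis `FL ε K` follows for
every `ε > 0` and some `K` from `RS.fundR` (RS/FL.lean) with `b` large; compare how RS/K.lean or RS/E-users get it):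
almost surely for all `ε`, large `m` and `(log m)^B ≤ y ≤ m`: `|#M ∩ (m, m+y] - y / log m| ≤ 4 ε y / log m`.
`NB a 0 x 1 0 = #M ∩ (0, x]`. Lower and upper bound: with `m_k = k ⌊x / n⌋`, `1 ≤ k < n` (blocks of length
`h = ⌊x/n⌋ ≤ m_k`), `log m_k = log x + O(log n)`, and the two remaining parts have at most `2 x / n + n` elements times ...
(better: the part `(0, h]` again by `#M ∩ (0,h] ≤ C h / log h` for large `h`, from dyadic blocks `(m, 2m]`, or by strong
induction: if `#M ∩ (0, x] ≤ 8 x / log x` ...). Any proof is fine. -/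
def S_DEN : Prop := ∀ (Ω : Type) [MeasurableSpace Ω] (μ : Measure Ω) [IsProbabilityMeasure μ] (a : ℕ → Ω → ℕ),
  Setup μ a → ∀ᵐ ω ∂μ,
    Tendsto (fun x : ℕ => (NB (fun p => a p ω) 0 x 1 0 : ℝ) * Real.log x / x) atTop (𝓝 1)

end Pool.Agent.V5helper33.EHS
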